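import Mathlib

set_option autoImplicit false

namespace Pool.Agent.Results.MP_921642_ag.Counter

open MvPolynomial

/-- Forms of degree d in n+1 variables vanishing to order at least m i at the point with
homogeneous coordinates p i, for every i. -/
noncomputable def linSys (n d s : ℕ) (m : Fin s → ℕ) (p : Fin s → Fin (n + 1) → ℂ) :
    Submodule ℂ (MvPolynomial (Fin (n + 1)) ℂ) :=
  homogeneousSubmodule (Fin (n + 1)) ℂ d ⊓
    ⨅ i, Submodule.restrictScalars ℂ
      (Ideal.span (Set.range (fun j => (X j - C (p i j) : MvPolynomial (Fin (n + 1)) ℂ))) ^ m i)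

/-- k_I = max(sum of m i over I minus r d, 0) with r = |I| - 1 (so k of the empty set is d). -/
def kI (d s : ℕ) (m : Fin s → ℕ) (I : Finset (Fin s)) : ℕ :=
  Int.toNat ((∑ i ∈ I, (m i : ℤ)) - ((I.card : ℤ) - 1) * d)

/-- Linear virtual dimension: sum over all I with |I| = r + 1 at most min(n, s). -/
def lvdim (n d s : ℕ) (m : Fin s → ℕ) : ℤ :=
  ∑ I ∈ (Finset.univ : Finset (Finset (Fin s))).filter (fun I => I.card ≤ min n s),
    (-1 : ℤ) ^ I.card * ((n + kI d s m I - I.card).choose n : ℤ)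

open Classical in
/-- Linear expected dimension. -/
noncomputable def ldim (n d s : ℕ) (m : Fin s → ℕ) : ℤ :=
  if ∃ m' : Fin s → ℕ, (∀ i, m' i ≤ m i) ∧ lvdim n d s m' < 0 then 0 else max (lvdim n d s m) 0

theorem lv_all : ∀ a b c : Fin 4, 0 ≤ lvdim 2 3 3 ![a.val, b.val, c.val] := by decide +kernel

theorem ld : ldim 2 3 3 (fun _ => 3) = 1 := by
  have h : lvdim 2 3 3 (fun _ => 3) = 1 := by decide +kernel
  rw [ldim, if_neg, h]
  · norm_num
  · rintro ⟨m', h1, h2⟩
    have e : m' = ![m' 0, m' 1, m' 2] := by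
      funext i
      fin_cases i <;> rfl
    have := lv_all ⟨m' 0, Nat.lt_succ_of_le (h1 0)⟩ ⟨m' 1, Nat.lt_succ_of_le (h1 1)⟩
      ⟨m' 2, Nat.lt_succ_of_le (h1 2)⟩
    rw [e] at h2
    exact absurd h2 (not_lt.mpr this)

abbrev R := MvPolynomial (Fin (2 + 1)) ℂ

theorem hom_eval (F : R) (d : ℕ) (hF : F.IsHomogeneous d) (t : ℂ) (x : Fin (2 + 1) → ℂ) :
    eval (t • x) F = t ^ d * eval x F := by
  rw [eval_eq', eval_eq', Finset.mul_sum]
  apply Finset.sum_congr rfl
  intro e he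
  have hd : d = ∑ i, e i := by
    have := hF (mem_support_iff.mp he)
    rw [← this, Finsupp.weight_apply, Finsupp.sum_fintype _ _ (fun _ => by simp)]
    simp
  simp only [Pi.smul_apply, smul_eq_mul, mul_pow, Finset.prod_mul_distrib,
    Finset.prod_pow_eq_pow_sum, ← hd]
  ring

theorem cone (F : R) (d : ℕ) (hF : F.IsHomogeneous d) (p : Fin (2 + 1) → ℂ)
    (hp : F ∈ Ideal.span (Set.range (fun j => (X j - C (p j) : R))) ^ d) (x : Fin (2 + 1) → ℂ) :
    ∃ c : ℂ, ∀ s : ℂ, s ≠ 0 → eval (x + s • p) F = c := by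
  let ψ : R →ₐ[ℂ] Polynomial ℂ :=
    aeval (fun j => Polynomial.C (x j) * Polynomial.X + Polynomial.C (p j))
  have h1 : Ideal.map ψ (Ideal.span (Set.range (fun j => (X j - C (p j) : R))))
      ≤ Ideal.span {(Polynomial.X : Polynomial ℂ)} := by
    rw [Ideal.map_le_iff_le_comap, Ideal.span_le]
    rintro _ ⟨j, rfl⟩
    simp only [SetLike.mem_coe, Ideal.mem_comap, Ideal.mem_span_singleton]
    refine ⟨Polynomial.C (x j), ?_⟩
    simp [ψ]
  have h2 : ψ F ∈ Ideal.span {(Polynomial.X : Polynomial ℂ)} ^ d := by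
    have := Ideal.mem_map_of_mem ψ hp
    rw [Ideal.map_pow] at this
    exact Ideal.pow_right_mono h1 d this
  rw [Ideal.span_singleton_pow, Ideal.mem_span_singleton] at h2
  obtain ⟨h, hh⟩ := h2
  have hdeg : (ψ F).natDegree ≤ d * 1 :=
    aeval_natDegree_le F hF.totalDegree_le _ (fun j => Polynomial.natDegree_linear_le)
  have hc : h = Polynomial.C (h.coeff 0) := by
    by_cases h0 : h = 0
    · simp [h0]
    · apply Polynomial.eq_C_of_natDegree_le_zero
      rw [hh, Polynomial.natDegree_X_pow_mul d h0] at hdeg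
      omega
  refine ⟨h.coeff 0, fun s hs => ?_⟩
  have h3 : (ψ F).eval s⁻¹ = eval (s⁻¹ • (x + s • p)) F := by
    have : (Polynomial.evalRingHom s⁻¹).comp (ψ : R →+* Polynomial ℂ)
        = eval (s⁻¹ • (x + s • p)) := by
      apply ringHom_ext
      · intro r
        simp [ψ]
      · intro i
        simp [ψ]
        field_simp
    exact RingHom.congr_fun this F
  rw [hom_eval F d hF, hh, hc] at h3
  simp only [Polynomial.eval_mul, Polynomial.eval_pow, Polynomial.eval_X, Polynomial.eval_C] at h3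
  exact (mul_left_cancel₀ (pow_ne_zero d (inv_ne_zero hs)) h3).symm

theorem shift (F : R) (d : ℕ) (hF : F.IsHomogeneous d) (p : Fin (2 + 1) → ℂ)
    (hp : F ∈ Ideal.span (Set.range (fun j => (X j - C (p j) : R))) ^ d) (y : Fin (2 + 1) → ℂ)
    (u : ℂ) : eval (y + u • p) F = eval y F := by
  obtain ⟨s, hs1, hs2⟩ : ∃ s : ℂ, s ≠ 0 ∧ s + u ≠ 0 := by
    by_cases h : (1 : ℂ) + u = 0
    · refine ⟨2, two_ne_zero, fun h2 => ?_⟩
      have : (1 : ℂ) = 0 := by linear_combination h2 - h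
      exact one_ne_zero this
    · exact ⟨1, one_ne_zero, h⟩
  obtain ⟨c, hc⟩ := cone F d hF p hp (y - s • p)
  have e1 := hc s hs1
  have e2 := hc (s + u) hs2
  rw [sub_add_cancel] at e1
  rw [add_smul, ← add_assoc, sub_add_cancel] at e2
  rw [e1, e2]

theorem empty (d : ℕ) (hd : d = 3) (p : Fin 3 → Fin (2 + 1) → ℂ)
    (hp : (Matrix.of p).det ≠ 0) : linSys 2 d 3 (fun _ => d) p = ⊥ := by
  rw [eq_bot_iff]
  rintro F ⟨hF, h⟩
  have h' : ∀ i, F ∈ Ideal.span (Set.range (fun j => (X j - C (p i j) : R))) ^ d :=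
    fun i => (Submodule.mem_iInf (fun i => Submodule.restrictScalars ℂ
      (Ideal.span (Set.range (fun j => (X j - C (p i j) : R))) ^ d))).mp h i
  rw [Submodule.mem_bot]
  apply MvPolynomial.funext
  intro y
  have hu : IsUnit (Matrix.of p) := (Matrix.isUnit_iff_isUnit_det _).mpr (Ne.isUnit hp)
  obtain ⟨c, hc⟩ := Matrix.vecMul_surjective_iff_isUnit.mpr hu y
  have e : y = 0 + c 0 • p 0 + c 1 • p 1 + c 2 • p 2 := by
    rw [← hc]
    funext j
    simp [Matrix.vecMul, dotProduct, Fin.sum_univ_three]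
  have h0 : eval (0 : Fin (2 + 1) → ℂ) F = 0 := by
    have := hom_eval F d hF 0 0
    rw [zero_smul, hd] at this
    simpa using this
  rw [e, shift F d hF _ (h' 2), shift F d hF _ (h' 1), shift F d hF _ (h' 0), h0, map_zero]

theorem result :
    (ldim 2 3 3 (fun _ => 3) = 1 ∧
      ∀ p : Fin 3 → Fin (2 + 1) → ℂ, (Matrix.of p).det ≠ 0 → linSys 2 3 3 (fun _ => 3) p = ⊥) ∧
    ¬ (∀ n d m s : ℕ, 1 ≤ n → 1 ≤ m → m ≤ d → 1 ≤ s →
        ∃ G : MvPolynomial (Fin s × Fin (n + 1)) ℂ, G ≠ 0 ∧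
          ∀ p : Fin s → Fin (n + 1) → ℂ, eval (fun x => p x.1 x.2) G ≠ 0 →
            ldim n d s (fun _ => m) ≤ (Module.finrank ℂ (linSys n d s (fun _ => m) p) : ℤ)) := by
  refine ⟨⟨ld, empty 3 rfl⟩, fun H => ?_⟩
  obtain ⟨G, hG, h⟩ := H 2 3 3 3 (by norm_num) (by norm_num) (by norm_num) (by norm_num)
  let D : MvPolynomial (Fin 3 × Fin (2 + 1)) ℂ := (Matrix.of fun i j => X (i, j)).det
  have hD : ∀ x : Fin 3 × Fin (2 + 1) → ℂ, eval x D = (Matrix.of fun i j => x (i, j)).det := by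
    intro x
    rw [RingHom.map_det]
    congr 1
    ext i j
    simp
  have hD0 : D ≠ 0 := by
    intro h0
    have := hD (fun q => (1 : Matrix (Fin 3) (Fin 3) ℂ) q.1 q.2)
    rw [h0, map_zero] at this
    have h1 : (Matrix.of fun i j => (1 : Matrix (Fin 3) (Fin 3) ℂ) i j).det = 1 := Matrix.det_one
    exact zero_ne_one (this.trans h1)
  obtain ⟨x, hx⟩ : ∃ x, eval x (G * D) ≠ 0 := by
    by_contra hc
    push Not at hc
    exact mul_ne_zero hG hD0 (MvPolynomial.funext (fun q => by rw [hc q, map_zero]))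
  rw [map_mul, hD] at hx
  have h1 := h (fun i j => x (i, j)) (left_ne_zero_of_mul hx)
  rw [ld, empty 3 rfl _ (right_ne_zero_of_mul hx), finrank_bot] at h1
  norm_num at h1

end Pool.Agent.Results.MP_921642_ag.Counter
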